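import Mathlib

/-!
Test-free propositional dynamic logic does not have the Craig interpolation property.

Let `a` be an atomic program and let `q`, `r` be proposition letters. The formula
`X = [(q?; a)*] ¬ r` of full PDL says that no path through `q`-states leads to an `r`-state.

* `X` holds iff `left` holds for some choice of the private letter `p`, where
  `left = p ∧ [a*] ((p ∧ q) → [a] p) ∧ [a*] (p → ¬ r)`.
* If `mark = ⟨a*⟩ (r ∧ s) ∧ [a*] (¬ q → [a] [a*] ¬ (r ∧ s))` holds for some choice of the private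
  letter `s`, then `X` fails; and on paths (or trees) the converse is true, one marks by `s` the
  end of a path which shows that `X` fails.

So `left → ¬ mark` is a valid implication between test-free formulas, `X` is an interpolant, and
each interpolant agrees with `X` on paths. No test-free formula does: on the path
`0, 1, 2, …` whose states are labelled `q` except for the multiples of `N`, and `r` at the even
multiples of `N`, a test-free formula does not distinguish the states `1` and `N + 1` if `N` is
a large multiple of a suitable number, because the lengths of the runs of a test-free program form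
an ultimately periodic set.
-/

namespace Pool.Agent.Results.MP_7a64d7_lc.NoTestFreeInterpolants

universe u

mutual

/-- The formulas of full PDL: `letter n` are the proposition letters. -/
inductive Form : Type
  | letter : ℕ → Form
  | bot : Form
  | neg : Form → Form
  | and : Form → Form → Form
  | box : Prog → Form → Form

/-- The programs of full PDL: `atom n` are the atomic programs, `test τ` is `τ?`. -/
inductive Prog : Type
  | atom : ℕ → Prog
  | seq : Prog → Prog → Prog
  | choice : Prog → Prog → Prog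
  | star : Prog → Prog
  | test : Form → Prog

end

/-- Implication. -/
def Form.imp (φ ψ : Form) : Form := (φ.and ψ.neg).neg

/-- A Kripke model. -/
structure Model where
  /-- The states. -/
  W : Type u
  /-- The relations of the atomic programs. -/
  R : ℕ → W → W → Prop
  /-- The valuation of the proposition letters. -/
  V : ℕ → W → Prop

mutual

/-- Truth of a formula at a state. -/
def holds (M : Model.{u}) : Form → M.W → Prop
  | .letter p, w => M.V p w
  | .bot, _ => False
  | .neg φ, w => ¬ holds M φ w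
  | .and φ ψ, w => holds M φ w ∧ holds M ψ w
  | .box α φ, w => ∀ v, rel M α w v → holds M φ v

/-- The relation of a program. -/
def rel (M : Model.{u}) : Prog → M.W → M.W → Prop
  | .atom a, w, v => M.R a w v
  | .seq α β, w, v => ∃ x, rel M α w x ∧ rel M β x v
  | .choice α β, w, v => rel M α w v ∨ rel M β w v
  | .star α, w, v => Relation.ReflTransGen (rel M α) w v
  | .test τ, w, v => w = v ∧ holds M τ w

end

/-- A formula is valid if it is true at every state of every model. -/
def Valid (φ : Form) : Prop := ∀ (M : Model.{u}) (w : M.W), holds M φ w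

mutual

/-- The vocabulary of a formula: the proposition letters (`Sum.inl`) and the atomic programs
(`Sum.inr`) which occur in it. -/
def Form.voc : Form → Set (ℕ ⊕ ℕ)
  | .letter p => {Sum.inl p}
  | .bot => ∅
  | .neg φ => φ.voc
  | .and φ ψ => φ.voc ∪ ψ.voc
  | .box α φ => α.voc ∪ φ.voc

/-- The vocabulary of a program. -/
def Prog.voc : Prog → Set (ℕ ⊕ ℕ)
  | .atom a => {Sum.inr a}
  | .seq α β => α.voc ∪ β.voc
  | .choice α β => α.voc ∪ β.voc
  | .star α => α.voc
  | .test τ => τ.voc

end

mutual

/-- The test-free formulas: no test occurs. -/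
def Form.TestFree : Form → Prop
  | .letter _ => True
  | .bot => True
  | .neg φ => φ.TestFree
  | .and φ ψ => φ.TestFree ∧ ψ.TestFree
  | .box α φ => α.TestFree ∧ φ.TestFree

/-- The test-free programs. -/
def Prog.TestFree : Prog → Prop
  | .atom _ => True
  | .seq α β => α.TestFree ∧ β.TestFree
  | .choice α β => α.TestFree ∧ β.TestFree
  | .star α => α.TestFree
  | .test _ => False

end

/-- `θ` is an interpolant of `φ` and `ψ`. -/
def Interpolant (φ ψ θ : Form) : Prop :=
  θ.voc ⊆ φ.voc ∩ ψ.voc ∧ Valid.{u} (φ.imp θ) ∧ Valid.{u} (θ.imp ψ)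

/-- A fragment `L` has the Craig interpolation property. -/
def CraigInterpolation (L : Form → Prop) : Prop :=
  ∀ φ ψ, L φ → L ψ → Valid.{u} (φ.imp ψ) → ∃ θ, L θ ∧ Interpolant.{u} φ ψ θ

/-! ### Ultimately periodic sets -/

/-- Ultimately periodic sets of natural numbers. -/
def EP (S : Set ℕ) : Prop := ∃ T e : ℕ, 0 < e ∧ ∀ k, T ≤ k → (k ∈ S ↔ k + e ∈ S)

theorem ep_iter {S : Set ℕ} {T e : ℕ} (h : ∀ k, T ≤ k → (k ∈ S ↔ k + e ∈ S)) (m : ℕ) :
    ∀ k, T ≤ k → (k ∈ S ↔ k + m * e ∈ S) := by
  induction m with
  | zero => intro k _; simp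
  | succ m ih =>
    intro k hk
    rw [ih k hk, h (k + m * e) (by omega)]
    have : k + m * e + e = k + (m + 1) * e := by ring
    rw [this]

theorem ep_union {S S' : Set ℕ} (h : EP S) (h' : EP S') : EP (S ∪ S') := by
  obtain ⟨T, e, he, hS⟩ := h
  obtain ⟨T', e', he', hS'⟩ := h'
  refine ⟨max T T', e * e', Nat.mul_pos he he', fun k hk => ?_⟩
  have h1 := ep_iter hS e' k (le_trans (le_max_left _ _) hk)
  have h2 := ep_iter hS' e k (le_trans (le_max_right _ _) hk)
  rw [mul_comm e' e] at h1
  simp only [Set.mem_union]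
  rw [h1, h2]

theorem ep_add {S S' : Set ℕ} (h : EP S) (h' : EP S') :
    EP {k | ∃ i ∈ S, ∃ j ∈ S', k = i + j} := by
  obtain ⟨T, e, he, hS⟩ := h
  obtain ⟨T', e', he', hS'⟩ := h'
  set E := e * e' with hE
  have hE0 : 0 < E := Nat.mul_pos he he'
  have h1 : ∀ k, T ≤ k → (k ∈ S ↔ k + E ∈ S) := by
    intro k hk
    have := ep_iter hS e' k hk
    rwa [mul_comm e' e] at this
  have h2 : ∀ k, T' ≤ k → (k ∈ S' ↔ k + E ∈ S') := fun k hk => ep_iter hS' e k hk
  refine ⟨T + T' + E, E, hE0, fun k hk => ⟨?_, ?_⟩⟩
  · rintro ⟨i, hi, j, hj, rfl⟩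
    by_cases hiT : T ≤ i
    · exact ⟨i + E, (h1 i hiT).mp hi, j, hj, by ring⟩
    · have hjT : T' ≤ j := by omega
      exact ⟨i, hi, j + E, (h2 j hjT).mp hj, by ring⟩
  · rintro ⟨i, hi, j, hj, hk'⟩
    by_cases hiT : T + E ≤ i
    · obtain ⟨i', rfl⟩ := Nat.exists_eq_add_of_le' (show E ≤ i by omega)
      exact ⟨i', (h1 i' (by omega)).mpr hi, j, hj, by omega⟩
    · have hjT : T' + E ≤ j := by omega
      obtain ⟨j', rfl⟩ := Nat.exists_eq_add_of_le' (show E ≤ j by omega)
      exact ⟨i, hi, j', (h2 j' (by omega)).mpr hj, by omega⟩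

theorem ep_closure (S : Set ℕ) : EP (AddSubmonoid.closure S : Set ℕ) := by
  by_cases hS : ∃ s ∈ S, 0 < s
  · obtain ⟨s, hs, hs0⟩ := hS
    have hmem : s ∈ AddSubmonoid.closure S := AddSubmonoid.subset_closure hs
    have hmul : ∀ (m : ℕ) (x : ℕ), x ∈ AddSubmonoid.closure S →
        x + m * s ∈ AddSubmonoid.closure S := by
      intro m x hx
      have : m * s ∈ AddSubmonoid.closure S := by
        have := (AddSubmonoid.closure S).nsmul_mem hmem m
        simpa using this
      exact (AddSubmonoid.closure S).add_mem hx this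
    have hc : ∀ c : ℕ, ∃ T : ℕ, ∀ k, T ≤ k → k % s = c → k + s ∈ AddSubmonoid.closure S →
        k ∈ AddSubmonoid.closure S := by
      intro c
      by_cases h : ∃ m ∈ AddSubmonoid.closure S, m % s = c
      · obtain ⟨m, hm, hmc⟩ := h
        refine ⟨m, fun k hk hkc _ => ?_⟩
        have h1 : s ∣ k - m := (Nat.modEq_iff_dvd' hk).mp (hmc.trans hkc.symm)
        obtain ⟨j, hj⟩ := h1
        have h2 : k = m + j * s := by rw [mul_comm j s, ← hj]; omega
        rw [h2]
        exact hmul j m hm
      · refine ⟨0, fun k _ hkc hks => ?_⟩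
        exfalso
        exact h ⟨k + s, hks, by rw [Nat.add_mod_right]; exact hkc⟩
    choose T hT using hc
    refine ⟨(Finset.range s).sup T, s, hs0, fun k hk => ⟨fun h => ?_, fun h => ?_⟩⟩
    · have := hmul 1 k h
      rwa [one_mul] at this
    · exact hT (k % s) k (le_trans (Finset.le_sup (f := T)
        (Finset.mem_range.mpr (Nat.mod_lt _ hs0))) hk) rfl h
  · push Not at hS
    have h0 : ∀ k ∈ AddSubmonoid.closure S, k = 0 := by
      intro k hk
      induction hk using AddSubmonoid.closure_induction with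
      | mem x hx => exact Nat.le_zero.mp (hS x hx)
      | zero => rfl
      | add x y _ _ hx hy => rw [hx, hy]
    refine ⟨1, 1, one_pos, fun k hk => ⟨fun h => ?_, fun h => ?_⟩⟩
    · have := h0 k h
      omega
    · have := h0 _ h
      omega

/-! ### The models -/

/-- The path `0, 1, 2, …`. The letter `0` (`q`) is true off the multiples of `N`, the letter `1`
(`r`) is true at the multiples of `2 N`, the letter `2` (`p`) at the numbers from `1` to `N`, the
letter `3` (`s`) at `2 N`. -/
def path (N : ℕ) : Model.{u} where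
  W := ULift.{u} ℕ
  R a x y := a = 0 ∧ y.down = x.down + 1
  V n x := (n = 0 ∧ ¬ N ∣ x.down) ∨ (n = 1 ∧ 2 * N ∣ x.down) ∨
    (n = 2 ∧ 1 ≤ x.down ∧ x.down ≤ N) ∨ (n = 3 ∧ x.down = 2 * N)

/-- The vocabulary consisting of the letters `0`, `1` and the atomic program `0`. -/
def common : Set (ℕ ⊕ ℕ) := {Sum.inl 0, Sum.inl 1, Sum.inr 0}

theorem rel_path : ∀ (α : Prog), α.TestFree → α.voc ⊆ common →
    ∃ S : Set ℕ, EP S ∧ ∀ (N : ℕ) (x y : (path.{u} N).W),
      rel (path.{u} N) α x y ↔ ∃ k ∈ S, y.down = x.down + k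
  | .atom a, _, hv => by
    have ha : a = 0 := by
      have := hv (show Sum.inr a ∈ (Prog.atom a).voc by simp [Prog.voc])
      simpa [common] using this
    subst ha
    refine ⟨{1}, ⟨2, 1, one_pos, fun k hk => ?_⟩, fun N x y => ?_⟩
    · simp only [Set.mem_singleton_iff]
      omega
    · simp [rel, path]
  | .seq α β, ht, hv => by
    simp only [Prog.TestFree] at ht
    simp only [Prog.voc, Set.union_subset_iff] at hv
    obtain ⟨S, hS, h1⟩ := rel_path α ht.1 hv.1
    obtain ⟨S', hS', h2⟩ := rel_path β ht.2 hv.2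
    refine ⟨_, ep_add hS hS', fun N x y => ?_⟩
    simp only [rel]
    constructor
    · rintro ⟨z, hz, hz'⟩
      obtain ⟨i, hi, hi'⟩ := (h1 N x z).mp hz
      obtain ⟨j, hj, hj'⟩ := (h2 N z y).mp hz'
      exact ⟨i + j, ⟨i, hi, j, hj, rfl⟩, by omega⟩
    · rintro ⟨k, ⟨i, hi, j, hj, rfl⟩, hk⟩
      exact ⟨⟨x.down + i⟩, (h1 N _ _).mpr ⟨i, hi, rfl⟩,
        (h2 N _ _).mpr ⟨j, hj, by rw [hk]; ring⟩⟩
  | .choice α β, ht, hv => by
    simp only [Prog.TestFree] at ht
    simp only [Prog.voc, Set.union_subset_iff] at hv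
    obtain ⟨S, hS, h1⟩ := rel_path α ht.1 hv.1
    obtain ⟨S', hS', h2⟩ := rel_path β ht.2 hv.2
    refine ⟨_, ep_union hS hS', fun N x y => ?_⟩
    simp only [rel]
    rw [h1, h2]
    constructor
    · rintro (⟨k, hk, hk'⟩ | ⟨k, hk, hk'⟩)
      · exact ⟨k, Or.inl hk, hk'⟩
      · exact ⟨k, Or.inr hk, hk'⟩
    · rintro ⟨k, hk | hk, hk'⟩
      · exact Or.inl ⟨k, hk, hk'⟩
      · exact Or.inr ⟨k, hk, hk'⟩
  | .star α, ht, hv => by
    simp only [Prog.TestFree] at ht
    simp only [Prog.voc] at hv
    obtain ⟨S, _, h1⟩ := rel_path α ht hv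
    refine ⟨_, ep_closure S, fun N x y => ?_⟩
    simp only [rel]
    constructor
    · intro h
      induction h with
      | refl => exact ⟨0, (AddSubmonoid.closure S).zero_mem, rfl⟩
      | tail _ hyz ih =>
        obtain ⟨k, hk, hk'⟩ := ih
        obtain ⟨i, hi, hi'⟩ := (h1 N _ _).mp hyz
        exact ⟨k + i, (AddSubmonoid.closure S).add_mem hk (AddSubmonoid.subset_closure hi),
          by omega⟩
    · rintro ⟨k, hk, hk'⟩
      have key : ∀ k ∈ AddSubmonoid.closure S, ∀ x : (path.{u} N).W,
          Relation.ReflTransGen (rel (path.{u} N) α) x ⟨x.down + k⟩ := by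
        intro k hk
        induction hk using AddSubmonoid.closure_induction with
        | mem i hi =>
          intro x
          exact Relation.ReflTransGen.single ((h1 N _ _).mpr ⟨i, hi, rfl⟩)
        | zero => intro x; exact Relation.ReflTransGen.refl
        | add i j _ _ hi hj =>
          intro x
          have := (hi x).trans (hj ⟨x.down + i⟩)
          have e : (⟨x.down + (i + j)⟩ : (path.{u} N).W) = ⟨x.down + i + j⟩ := by
            congr 1; omega
          rw [e]
          exact this
      have h2 := key k hk x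
      have e : y = ⟨x.down + k⟩ := ULift.ext _ _ hk'
      rw [e]
      exact h2
  | .test τ, ht, _ => by
    simp only [Prog.TestFree] at ht

/-- The truth of a test-free formula in the common vocabulary. -/
theorem holds_path : ∀ (θ : Form), θ.TestFree → θ.voc ⊆ common →
    (∀ (N x : ℕ), holds (path.{u} N) θ ⟨x⟩ ↔ holds (path.{u} N) θ ⟨x + 2 * N⟩) ∧
    ∃ t d : ℕ, 0 < d ∧ ∀ N, d ∣ N → ∀ x, (∀ j ≤ t, ¬ N ∣ x + j) →
      (holds (path.{u} N) θ ⟨x⟩ ↔ holds (path.{u} N) θ ⟨x + N⟩)
  | .letter p, _, hv => by
    have hp : p = 0 ∨ p = 1 := by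
      have := hv (show Sum.inl p ∈ (Form.letter p).voc by simp [Form.voc])
      simpa [common] using this
    have hN : ∀ N x : ℕ, N ∣ x + N ↔ N ∣ x := fun N x => Nat.dvd_add_left (dvd_refl N)
    have h2N : ∀ N x : ℕ, N ∣ x + 2 * N ↔ N ∣ x := fun N x =>
      Nat.dvd_add_left (Dvd.intro_left 2 rfl)
    have h22 : ∀ N x : ℕ, 2 * N ∣ x + 2 * N ↔ 2 * N ∣ x := fun N x =>
      Nat.dvd_add_left (dvd_refl _)
    rcases hp with rfl | rfl
    · refine ⟨fun N x => ?_, 0, 1, one_pos, fun N _ x hx => ?_⟩
      · simp [holds, path, h2N]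
      · simp [holds, path, hN]
    · refine ⟨fun N x => ?_, 0, 1, one_pos, fun N _ x hx => ?_⟩
      · simp [holds, path, h22]
      · have h0 := hx 0 le_rfl
        rw [add_zero] at h0
        have h1 : ¬ 2 * N ∣ x := fun h => h0 (dvd_trans (Dvd.intro_left 2 rfl) h)
        have h2 : ¬ 2 * N ∣ x + N := fun h =>
          h0 ((hN N x).mp (dvd_trans (Dvd.intro_left 2 rfl) h))
        simp [holds, path, h1, h2]
  | .bot, _, _ => by
    refine ⟨fun N x => ?_, 0, 1, one_pos, fun N _ x _ => ?_⟩ <;> simp [holds]
  | .neg φ, ht, hv => by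
    simp only [Form.TestFree] at ht
    simp only [Form.voc] at hv
    obtain ⟨h1, t, d, hd, h2⟩ := holds_path φ ht hv
    refine ⟨fun N x => ?_, t, d, hd, fun N hN x hx => ?_⟩
    · simp only [holds]
      rw [h1 N x]
    · simp only [holds]
      rw [h2 N hN x hx]
  | .and φ ψ, ht, hv => by
    simp only [Form.TestFree] at ht
    simp only [Form.voc, Set.union_subset_iff] at hv
    obtain ⟨h1, t, d, hd, h2⟩ := holds_path φ ht.1 hv.1
    obtain ⟨h1', t', d', hd', h2'⟩ := holds_path ψ ht.2 hv.2
    refine ⟨fun N x => ?_, max t t', d * d', Nat.mul_pos hd hd', fun N hN x hx => ?_⟩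
    · simp only [holds]
      rw [h1 N x, h1' N x]
    · simp only [holds]
      rw [h2 N (dvd_trans (Dvd.intro _ rfl) hN) x
        (fun j hj => hx j (le_trans hj (le_max_left _ _))),
        h2' N (dvd_trans (Dvd.intro_left _ rfl) hN) x
        (fun j hj => hx j (le_trans hj (le_max_right _ _)))]
  | .box α φ, ht, hv => by
    simp only [Form.TestFree] at ht
    simp only [Form.voc, Set.union_subset_iff] at hv
    obtain ⟨h1, t, d, hd, h2⟩ := holds_path φ ht.2 hv.2
    obtain ⟨S, ⟨T, e, he, hS⟩, hrel⟩ := rel_path α ht.1 hv.1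
    have hbox : ∀ N x : ℕ, holds (path.{u} N) (Form.box α φ) ⟨x⟩ ↔
        ∀ k ∈ S, holds (path.{u} N) φ ⟨x + k⟩ := by
      intro N x
      simp only [holds]
      constructor
      · intro h k hk
        exact h ⟨x + k⟩ ((hrel N _ _).mpr ⟨k, hk, rfl⟩)
      · rintro h ⟨v⟩ hv
        obtain ⟨k, hk, hk'⟩ := (hrel N _ _).mp hv
        have hk'' : v = x + k := hk'
        rw [hk'']
        exact h k hk
    refine ⟨fun N x => ?_, T + t, d * e, Nat.mul_pos hd he, fun N hN x hx => ?_⟩
    · rw [hbox, hbox]
      apply forall₂_congr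
      intro k _
      rw [h1 N (x + k)]
      have : x + k + 2 * N = x + 2 * N + k := by ring
      rw [this]
    · rw [hbox, hbox]
      have hdN : d ∣ N := dvd_trans (Dvd.intro _ rfl) hN
      have heN : e ∣ N := dvd_trans (Dvd.intro_left _ rfl) hN
      obtain ⟨m, hm⟩ := heN
      have hper : ∀ k, T ≤ k → (k ∈ S ↔ k + N ∈ S) := by
        intro k hk
        have := ep_iter hS m k hk
        rwa [mul_comm m e, ← hm] at this
      have hsmall : ∀ k < T, (holds (path.{u} N) φ ⟨x + k⟩ ↔
          holds (path.{u} N) φ ⟨x + N + k⟩) := by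
        intro k hk
        have h3 := h2 N hdN (x + k) (fun j hj => by
          have := hx (k + j) (by omega)
          rwa [← add_assoc] at this)
        have h4 : x + k + N = x + N + k := by ring
        rwa [h4] at h3
      constructor
      · intro h k hk
        by_cases hkT : k < T
        · exact (hsmall k hkT).mp (h k hk)
        · have h3 := h (k + N) ((hper k (not_lt.mp hkT)).mp hk)
          have h4 : x + (k + N) = x + N + k := by ring
          rwa [h4] at h3
      · intro h k hk
        by_cases hkT : k < T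
        · exact (hsmall k hkT).mpr (h k hk)
        · have h3 := h (k + N) ((hper k (not_lt.mp hkT)).mp hk)
          have h4 : x + N + (k + N) = x + k + 2 * N := by ring
          rw [h4] at h3
          exact (h1 N (x + k)).mpr h3

/-! ### The implication -/

/-- The atomic program `a`. -/
def a : Prog := .atom 0

/-- The program `a*`. -/
def as : Prog := .star a

/-- The proposition letter `q`. -/
def q : Form := .letter 0

/-- The proposition letter `r`. -/
def r : Form := .letter 1

/-- The proposition letter `p`, which occurs in `left` only. -/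
def p : Form := .letter 2

/-- The proposition letter `s`, which occurs in `mark` only. -/
def s : Form := .letter 3

/-- `p ∧ [a*] ((p ∧ q) → [a] p) ∧ [a*] (p → ¬ r)` -/
def left : Form :=
  (p.and (.box as ((p.and q).imp (.box a p)))).and (.box as (p.imp r.neg))

/-- `⟨a*⟩ (r ∧ s) ∧ [a*] (¬ q → [a] [a*] ¬ (r ∧ s))` -/
def mark : Form :=
  (Form.neg (.box as (r.and s).neg)).and
    (.box as (q.neg.imp (.box a (.box as (r.and s).neg))))

/-- `[(q?; a)*] ¬ r` -/
def untilF : Form := .box (.star (.seq (.test q) a)) r.neg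

theorem holds_imp (M : Model.{u}) (φ ψ : Form) (w : M.W) :
    holds M (φ.imp ψ) w ↔ (holds M φ w → holds M ψ w) := by
  simp only [Form.imp, holds]
  tauto

theorem left_until : Valid.{u} (left.imp untilF) := by
  intro M w
  rw [holds_imp]
  intro h
  simp only [left, untilF, holds, p, q, r, as, a, holds_imp, rel] at h ⊢
  obtain ⟨⟨h1, h2⟩, h3⟩ := h
  intro v hv
  have key : M.V 2 v ∧ Relation.ReflTransGen (rel M (.atom 0)) w v := by
    induction hv with
    | refl => exact ⟨h1, Relation.ReflTransGen.refl⟩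
    | tail _ hyz ih =>
      obtain ⟨x, ⟨rfl, hq⟩, hx⟩ := hyz
      exact ⟨h2 _ ih.2 ⟨ih.1, hq⟩ _ hx, ih.2.tail hx⟩
  exact h3 v key.2 key.1

theorem until_mark : Valid.{u} (untilF.imp mark.neg) := by
  intro M w
  rw [holds_imp]
  intro h h'
  simp only [mark, untilF, holds, s, q, r, as, a, holds_imp, rel] at h h'
  obtain ⟨h1, h2⟩ := h'
  apply h1
  intro v hv hrs
  apply h v _ hrs.1
  -- every state before the end of the path satisfies `q`
  have key : ∀ x, Relation.ReflTransGen (rel M (.atom 0)) w x →
      Relation.ReflTransGen (rel M (.atom 0)) x v →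
      Relation.ReflTransGen
        (fun w v => ∃ x, (w = x ∧ M.V 0 w) ∧ M.R 0 x v) x v := by
    intro x hwx hxv
    induction hxv using Relation.ReflTransGen.head_induction_on with
    | refl => exact Relation.ReflTransGen.refl
    | head hyz hzv ih =>
      rename_i y z
      have hq : M.V 0 y := by
        by_contra hq
        exact h2 y hwx hq z hyz v hzv hrs
      exact Relation.ReflTransGen.head ⟨y, ⟨rfl, hq⟩, hyz⟩ (ih (hwx.tail hyz))
  exact key w Relation.ReflTransGen.refl hv

theorem voc_left : left.voc = {Sum.inl 2, Sum.inl 0, Sum.inl 1, Sum.inr 0} := by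
  ext x
  simp only [left, Form.voc, Form.imp, Prog.voc, as, a, p, q, r, Set.mem_union,
    Set.mem_singleton_iff, Set.mem_insert_iff]
  tauto

theorem voc_mark : mark.neg.voc = {Sum.inl 3, Sum.inl 0, Sum.inl 1, Sum.inr 0} := by
  ext x
  simp only [mark, Form.voc, Form.imp, Prog.voc, as, a, s, q, r, Set.mem_union,
    Set.mem_singleton_iff, Set.mem_insert_iff]
  tauto

theorem voc_common : left.voc ∩ mark.neg.voc = common := by
  rw [voc_left, voc_mark]
  ext x
  simp only [common, Set.mem_inter_iff, Set.mem_insert_iff, Set.mem_singleton_iff]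
  constructor
  · rintro ⟨h | h | h | h, h' | h' | h' | h'⟩ <;> simp_all
  · rintro (h | h | h) <;> simp [h]

theorem voc_until : untilF.voc = common := by
  ext x
  simp only [untilF, Form.voc, Prog.voc, a, q, r, common, Set.mem_union,
    Set.mem_singleton_iff, Set.mem_insert_iff]
  tauto

theorem reach_path {N : ℕ} {x y : (path.{u} N).W}
    (h : Relation.ReflTransGen (rel (path.{u} N) (.atom 0)) x y) : x.down ≤ y.down := by
  induction h with
  | refl => exact le_rfl
  | tail _ hyz ih =>
    simp only [rel, path] at hyz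
    have := hyz.2
    omega

theorem path_reach (N : ℕ) (x k : ℕ) :
    Relation.ReflTransGen (rel (path.{u} N) (.atom 0)) ⟨x⟩ ⟨x + k⟩ := by
  induction k with
  | zero => exact Relation.ReflTransGen.refl
  | succ k ih =>
    refine ih.tail ?_
    simp only [rel, path]
    exact ⟨trivial, by ring⟩

/-- `left` is true at `1`. -/
theorem left_path (N : ℕ) (hN : 0 < N) : holds (path.{u} N) left ⟨1⟩ := by
  simp only [left, holds, p, q, r, as, a, holds_imp, rel]
  refine ⟨⟨?_, ?_⟩, ?_⟩
  · simp only [path]
    right; right; left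
    exact ⟨trivial, le_rfl, hN⟩
  · rintro ⟨x⟩ _ ⟨hp, hq⟩ ⟨y⟩ hxy
    simp only [path] at hp hq hxy ⊢
    obtain ⟨_, hxy⟩ := hxy
    have hp' : 1 ≤ x ∧ x ≤ N := by simpa using hp
    have hq' : ¬ N ∣ x := by simpa using hq
    have hne : x ≠ N := fun h => hq' (h ▸ dvd_refl x)
    right; right; left
    have hxy' : y = x + 1 := hxy
    exact ⟨trivial, by omega, by omega⟩
  · rintro ⟨x⟩ _ hp hr
    simp only [path] at hp hr
    have hp' : 1 ≤ x ∧ x ≤ N := by simpa using hp
    have hr' : 2 * N ∣ x := by simpa using hr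
    have := Nat.le_of_dvd (by omega) hr'
    omega

/-- `mark` is true at `N + 1`. -/
theorem mark_path (N : ℕ) (hN : 1 < N) : holds (path.{u} N) mark ⟨1 + N⟩ := by
  simp only [mark, holds, s, q, r, as, a, holds_imp, rel]
  refine ⟨?_, ?_⟩
  · intro h
    have h1 := path_reach.{u} N (1 + N) (N - 1)
    have h2 : 1 + N + (N - 1) = 2 * N := by omega
    rw [h2] at h1
    refine h _ h1 ⟨?_, ?_⟩
    · simp only [path]
      right; left
      exact ⟨trivial, dvd_refl _⟩
    · simp [path]
  · rintro ⟨x⟩ hx hq ⟨y⟩ hy ⟨z⟩ hz ⟨_, hs⟩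
    have hx' : 1 + N ≤ x := reach_path hx
    have hyz : y ≤ z := reach_path hz
    simp only [path] at hq hy hs
    have hq' : N ∣ x := by
      by_contra hc
      exact hq (Or.inl ⟨trivial, hc⟩)
    have hy' : y = x + 1 := hy.2
    have hz' : z = 2 * N := by simpa using hs
    obtain ⟨k, rfl⟩ := hq'
    have h1 : 1 < k := by
      by_contra hc
      have : k ≤ 1 := not_lt.mp hc
      have := Nat.mul_le_mul_left N this
      omega
    have := Nat.mul_le_mul_left N h1
    omega

theorem no_testFree_interpolant (θ : Form) (hθ : θ.TestFree) :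
    ¬ Interpolant.{u} left mark.neg θ := by
  rintro ⟨hv, h1, h2⟩
  rw [voc_common] at hv
  obtain ⟨_, t, d, hd, h⟩ := holds_path.{u} θ hθ hv
  -- a large multiple of `d`
  set N := d * (t + 2) with hN
  have hN2 : t + 2 ≤ N := Nat.le_mul_of_pos_left _ hd
  have h3 := h N (Dvd.intro _ rfl) 1 (by
    intro j hj hdvd
    have := Nat.le_of_dvd (by omega) hdvd
    omega)
  have h4 : holds (path.{u} N) θ ⟨1⟩ :=
    (holds_imp _ _ _ _).mp (h1 (path.{u} N) ⟨1⟩) (left_path N (by omega))
  have h5 : holds (path.{u} N) mark.neg ⟨1 + N⟩ :=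
    (holds_imp _ _ _ _).mp (h2 (path.{u} N) ⟨1 + N⟩) (h3.mp h4)
  simp only [holds] at h5
  exact h5 (mark_path N (by omega))

/-- **Test-free PDL does not have the Craig interpolation property.** The implication
`left → ¬ mark` between test-free formulas is valid, the formula `[(q?; a)*] ¬ r` of full PDL is
an interpolant, and no test-free formula is an interpolant. -/
theorem result :
    ¬ CraigInterpolation.{u} Form.TestFree ∧
    left.TestFree ∧ mark.neg.TestFree ∧ Valid.{u} (left.imp mark.neg) ∧
    Interpolant.{u} left mark.neg untilF ∧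
    ∀ θ : Form, θ.TestFree → ¬ Interpolant.{u} left mark.neg θ := by
  have ht1 : left.TestFree := by
    simp [left, Form.TestFree, Form.imp, Prog.TestFree, as, a, p, q, r]
  have ht2 : mark.neg.TestFree := by
    simp [mark, Form.TestFree, Form.imp, Prog.TestFree, as, a, s, q, r]
  have hval : Valid.{u} (left.imp mark.neg) := by
    intro M w
    rw [holds_imp]
    intro h
    exact (holds_imp _ _ _ _).mp (until_mark M w) ((holds_imp _ _ _ _).mp (left_until M w) h)
  refine ⟨fun hC => ?_, ht1, ht2, hval, ⟨?_, left_until, until_mark⟩, no_testFree_interpolant⟩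
  · obtain ⟨θ, hθ, hI⟩ := hC left mark.neg ht1 ht2 hval
    exact no_testFree_interpolant θ hθ hI
  · rw [voc_common, voc_until]

end Pool.Agent.Results.MP_7a64d7_lc.NoTestFreeInterpolants
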